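import Mathlib
import Pool.Agent.H43.G.R_seed8.Y877.SxA
import Pool.Agent.H43.G.R_seed8.H373R2.T7.SysCount

/-! Dense index sets: sieve counts for one and two progressions. -/

namespace Pool.Agent.Y877.SX
open Finset Pool.Agent.H373R2.T7

lemma root_ex (p v M : ℕ) (hp : p.Prime) (hM : ¬ p ∣ M) : ∃ r, r < p ∧ p ∣ v + M * r := by
  have : Fact p.Prime := ⟨hp⟩
  have : NeZero p := ⟨hp.ne_zero⟩
  refine ⟨(-(v : ZMod p) * (M : ZMod p)⁻¹).val, ZMod.val_lt _, ?_⟩
  have hM0 : (M : ZMod p) ≠ 0 := by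
    intro h
    exact hM ((ZMod.natCast_eq_zero_iff _ _).1 h)
  rw [← ZMod.natCast_eq_zero_iff]
  push_cast
  rw [ZMod.natCast_zmod_val]
  field_simp
  ring

lemma root_uniq (p v M r1 r2 : ℕ) (hp : p.Prime) (hM : ¬ p ∣ M) (h1 : r1 < p) (h2 : r2 < p) (d1 : p ∣ v + M * r1)
    (d2 : p ∣ v + M * r2) : r1 = r2 := by
  have : Fact p.Prime := ⟨hp⟩
  have hM0 : (M : ZMod p) ≠ 0 := by
    intro h
    exact hM ((ZMod.natCast_eq_zero_iff _ _).1 h)
  rw [← ZMod.natCast_eq_zero_iff] at d1 d2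
  push_cast at d1 d2
  have e : (M : ZMod p) * r1 = M * r2 := by
    have := d1.trans d2.symm
    exact add_left_cancel this
  have e2 := mul_left_cancel₀ hM0 e
  rw [ZMod.natCast_eq_natCast_iff'] at e2
  rwa [Nat.mod_eq_of_lt h1, Nat.mod_eq_of_lt h2] at e2

lemma dvd_mod (p v M n : ℕ) : p ∣ v + M * n ↔ p ∣ v + M * (n % p) := by
  rw [← ZMod.natCast_eq_zero_iff, ← ZMod.natCast_eq_zero_iff]
  push_cast
  rw [ZMod.natCast_mod]

open Classical in
lemma few_one (p v M : ℕ) (hp : p.Prime) (hM : ¬ p ∣ M) : ((range p).filter (fun r => p ∣ v + M * r)).card ≤ 1 := by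
  rw [card_le_one]
  intro a ha b hb
  rw [mem_filter, mem_range] at ha hb
  exact root_uniq p v M a b hp hM ha.1 hb.1 ha.2 hb.2

open Classical in
lemma single_cnt (E U : ℕ) : ∃ G0 : ℕ, ∀ G : ℕ, G0 ≤ G → ∀ z : ℕ, 1 ≤ z → (z : ℝ) ≤ Real.log G ^ E → ∀ y M v : ℕ,
    (∀ p ∈ mid y z, ¬ p ∣ M) →
    G * Vm y z - G / Real.log G ^ U ≤ (((Icc 1 G).filter (fun g => ∀ p ∈ mid y z, ¬ p ∣ v + M * g)).card : ℝ) := by
  obtain ⟨N0, h0⟩ := sys_count 1 E U le_rfl
  refine ⟨N0, fun G hG z hz hzE y M v hM => ?_⟩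
  obtain ⟨Q, hQd⟩ : ∃ Q : ℕ → ℕ → Prop, ∀ p n, Q p n ↔ (p ∈ mid y z ∧ p ∣ v + M * n) := ⟨_, fun _ _ => Iff.rfl⟩
  have hQ : PerB Q 1 := by
    refine ⟨fun p n => by rw [hQd, hQd, dvd_mod], fun p hp => ?_⟩
    unfold nuB
    by_cases h : p ∈ mid y z
    · refine le_trans (card_le_card ?_) (few_one p v M hp (hM p h))
      intro r hr
      rw [mem_filter] at hr ⊢
      exact ⟨hr.1, ((hQd _ _).1 hr.2).2⟩
    · rw [filter_false_of_mem (fun r _ => by rw [hQd]; tauto), card_empty]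
      exact Nat.zero_le _
  have h1 := h0 G hG z hz hzE _ hQ
  have e1 : (Icc 1 G).filter (fun n : ℕ => ∀ p ∈ pz z, ¬ Q p n) =
      (Icc 1 G).filter (fun g => ∀ p ∈ mid y z, ¬ p ∣ v + M * g) := by
    apply filter_congr
    intro n _
    constructor
    · intro h p hp hd
      exact h p (mem_pz.2 (mem_mid.1 hp).2) ((hQd _ _).2 ⟨hp, hd⟩)
    · intro h p _ hq
      obtain ⟨hp, hd⟩ := (hQd _ _).1 hq
      exact h p hp hd
  rw [e1] at h1
  have h2 := (abs_le.1 h1).1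
  have h3 : Vm y z ≤ ∏ p ∈ pz z, (1 - (nuB Q p : ℝ) / p) := by
    have : Vm y z = ∏ p ∈ pz z, (if y < p then (1 - 1 / (p : ℝ)) else 1) := by
      unfold Vm mid
      rw [prod_filter]
    rw [this]
    apply prod_le_prod
    · intro p hp
      split_ifs
      · exact (fac_pos (mem_pz.1 hp).2).le
      · exact zero_le_one
    · intro p hp
      have hpp := (mem_pz.1 hp).2
      have hp0 : (0 : ℝ) < p := by exact_mod_cast hpp.pos
      split_ifs with hy
      · have : (nuB Q p : ℝ) ≤ 1 := by exact_mod_cast hQ.few p hpp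
        gcongr
      · have : nuB Q p = 0 := by
          unfold nuB
          rw [filter_false_of_mem, card_empty]
          intro r _ hq
          exact hy (mem_mid.1 ((hQd _ _).1 hq).1).1
        rw [this]
        simp
  have h4 : (G : ℝ) * Vm y z ≤ G * ∏ p ∈ pz z, (1 - (nuB Q p : ℝ) / p) := by
    gcongr
  linarith

open Classical in
lemma pair_cnt (E U : ℕ) : ∃ G0 : ℕ, ∀ G : ℕ, G0 ≤ G → ∀ z : ℕ, 1 ≤ z → (z : ℝ) ≤ Real.log G ^ E → ∀ y M v v' D : ℕ,
    (∀ p ∈ mid y z, ¬ p ∣ M) → (∀ p ∈ mid y z, ∀ g, p ∣ v + M * g → p ∣ v' + M * g → p ∣ D) →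
    (((Icc 1 G).filter (fun g => (∀ p ∈ mid y z, ¬ p ∣ v + M * g) ∧ (∀ p ∈ mid y z, ¬ p ∣ v' + M * g))).card : ℝ) ≤
      G * (Vm y z ^ 2 * fd y z D) + G / Real.log G ^ U := by
  obtain ⟨N0, h0⟩ := sys_count 2 E U (by norm_num)
  refine ⟨N0, fun G hG z hz hzE y M v v' D hM hD => ?_⟩
  obtain ⟨Q, hQd⟩ : ∃ Q : ℕ → ℕ → Prop, ∀ p n, Q p n ↔ (p ∈ mid y z ∧ (p ∣ v + M * n ∨ p ∣ v' + M * n)) :=
    ⟨_, fun _ _ => Iff.rfl⟩
  have hQ : PerB Q 2 := by
    refine ⟨fun p n => by rw [hQd, hQd, dvd_mod, dvd_mod p v'], fun p hp => ?_⟩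
    unfold nuB
    by_cases h : p ∈ mid y z
    · have h1 := few_one p v M hp (hM p h)
      have h2 := few_one p v' M hp (hM p h)
      refine le_trans (card_le_card (t := (range p).filter (fun r => p ∣ v + M * r) ∪ (range p).filter (fun r => p ∣ v' + M * r)) ?_) ?_
      · intro r hr
        rw [mem_filter] at hr
        rw [mem_union, mem_filter, mem_filter]
        rcases ((hQd _ _).1 hr.2).2 with h | h
        · exact Or.inl ⟨hr.1, h⟩
        · exact Or.inr ⟨hr.1, h⟩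
      · exact (card_union_le _ _).trans (by omega)
    · rw [filter_false_of_mem (fun r _ => by rw [hQd]; tauto), card_empty]
      exact Nat.zero_le _
  have h1 := h0 G hG z hz hzE _ hQ
  have e1 : (Icc 1 G).filter (fun n : ℕ => ∀ p ∈ pz z, ¬ Q p n) =
      (Icc 1 G).filter (fun g => (∀ p ∈ mid y z, ¬ p ∣ v + M * g) ∧ (∀ p ∈ mid y z, ¬ p ∣ v' + M * g)) := by
    apply filter_congr
    intro n _
    constructor
    · intro h
      exact ⟨fun p hp hd => h p (mem_pz.2 (mem_mid.1 hp).2) ((hQd _ _).2 ⟨hp, Or.inl hd⟩),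
        fun p hp hd => h p (mem_pz.2 (mem_mid.1 hp).2) ((hQd _ _).2 ⟨hp, Or.inr hd⟩)⟩
    · rintro ⟨ha, hb⟩ p _ hq
      obtain ⟨hp, hd | hd⟩ := (hQd _ _).1 hq
      · exact ha p hp hd
      · exact hb p hp hd
  rw [e1] at h1
  have h2 := (abs_le.1 h1).2
  have h3 : ∏ p ∈ pz z, (1 - (nuB Q p : ℝ) / p) ≤ Vm y z ^ 2 * fd y z D := by
    have e2 : Vm y z ^ 2 * fd y z D = ∏ p ∈ pz z, ((if y < p then (1 - 1 / (p : ℝ)) ^ 2 else 1) *
        (if y < p ∧ p ∣ D then (1 - 1 / (p : ℝ))⁻¹ else 1)) := by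
      unfold Vm fd mid
      rw [filter_filter, prod_filter, prod_filter, ← prod_pow, ← prod_mul_distrib]
      apply prod_congr rfl
      intro p _
      split_ifs <;> simp
    rw [e2]
    apply prod_le_prod
    · intro p hp
      have hpp := (mem_pz.1 hp).2
      have hp0 : (0 : ℝ) < p := by exact_mod_cast hpp.pos
      have : (nuB Q p : ℝ) / p ≤ 1 := by
        rw [div_le_one hp0]
        exact_mod_cast nuB_le Q p
      linarith
    · intro p hp
      have hpp := (mem_pz.1 hp).2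
      have hp0 : (0 : ℝ) < p := by exact_mod_cast hpp.pos
      have hfp := fac_pos hpp
      by_cases hy : y < p
      · have hmid : p ∈ mid y z := mem_mid.2 ⟨hy, mem_pz.1 hp⟩
        obtain ⟨r1, hr1, hd1⟩ := root_ex p v M hpp (hM p hmid)
        obtain ⟨r2, hr2, hd2⟩ := root_ex p v' M hpp (hM p hmid)
        have m1 : r1 ∈ (range p).filter (fun r => Q p r) := mem_filter.2 ⟨mem_range.2 hr1, (hQd _ _).2 ⟨hmid, Or.inl hd1⟩⟩
        have m2 : r2 ∈ (range p).filter (fun r => Q p r) := mem_filter.2 ⟨mem_range.2 hr2, (hQd _ _).2 ⟨hmid, Or.inr hd2⟩⟩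
        rw [if_pos hy]
        by_cases hpD : p ∣ D
        · rw [if_pos ⟨hy, hpD⟩]
          have : (1 : ℝ) ≤ nuB Q p := by
            have : 0 < nuB Q p := by
              unfold nuB
              exact card_pos.2 ⟨r1, m1⟩
            exact_mod_cast this
          have h5 : (1 - 1 / (p : ℝ)) ^ 2 * (1 - 1 / (p : ℝ))⁻¹ = 1 - 1 / (p : ℝ) := by
            field_simp
          rw [h5]
          gcongr
        · rw [if_neg (fun h => hpD h.2), mul_one]
          have hne : r1 ≠ r2 := by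
            intro h
            rw [← h] at hd2
            exact hpD (hD p hmid r1 hd1 hd2)
          have : (2 : ℝ) ≤ nuB Q p := by
            have : 1 < nuB Q p := by
              unfold nuB
              rw [one_lt_card]
              exact ⟨r1, m1, r2, m2, hne⟩
            exact_mod_cast this
          have h5 : 2 / (p : ℝ) ≤ (nuB Q p : ℝ) / p := by gcongr
          have h6 : (1 - 1 / (p : ℝ)) ^ 2 = 1 - 2 / p + (1 / (p : ℝ)) ^ 2 := by ring
          rw [h6]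
          have h7 : 0 ≤ (1 / (p : ℝ)) ^ 2 := by positivity
          linarith
      · rw [if_neg hy, if_neg (fun h => hy h.1)]
        have : 0 ≤ (nuB Q p : ℝ) / p := by positivity
        linarith
  have h4 : (G : ℝ) * ∏ p ∈ pz z, (1 - (nuB Q p : ℝ) / p) ≤ G * (Vm y z ^ 2 * fd y z D) := by
    gcongr
  linarith

end Pool.Agent.Y877.SX
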