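import Mathlib
import Pool.Agent.H43.G.R_seed8.Y877.SxA
import Pool.Agent.H43.G.R_seed8.H373R2.T7.BilLam

/-! Dense index sets: prime powers and the bilinear step. -/

namespace Pool.Agent.Y877.SX
open Finset Pool.Agent.H373R2.T7 Polynomial

lemma pp_sum (x e Y : ℕ) (hY : 1 ≤ Y) (S H : Finset ℕ) (hS : S ⊆ Icc 1 x) (hH : ∀ s ∈ S, ∀ h ∈ H, s ^ e + h ≤ Y) :
    ∑ h ∈ H, ∑ s ∈ S, (if (s ^ e + h).Prime then (0 : ℝ) else ArithmeticFunction.vonMangoldt (s ^ e + h)) ≤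
      x * (2 * √(Y : ℝ) * Real.log Y) := by
  rw [sum_comm]
  have h1 : ∀ s ∈ S, ∑ h ∈ H, (if (s ^ e + h).Prime then (0 : ℝ) else ArithmeticFunction.vonMangoldt (s ^ e + h)) ≤
      2 * √(Y : ℝ) * Real.log Y := by
    intro s hs
    have hs1 := (mem_Icc.1 (hS hs)).1
    have h2 := Chebyshev.psi_sub_theta_le (x := (Y : ℝ)) (by exact_mod_cast hY)
    rw [Chebyshev.psi_sub_theta_eq_sum_not_prime, Nat.floor_natCast, sum_filter] at h2
    refine le_trans ?_ h2
    have e1 : ∑ h ∈ H, (if (s ^ e + h).Prime then (0 : ℝ) else ArithmeticFunction.vonMangoldt (s ^ e + h)) =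
        ∑ n ∈ H.image (fun h => s ^ e + h), (if ¬ n.Prime then ArithmeticFunction.vonMangoldt n else (0 : ℝ)) := by
      rw [sum_image]
      · apply sum_congr rfl
        intro h _
        by_cases hp : (s ^ e + h).Prime
        · rw [if_pos hp, if_neg (not_not.2 hp)]
        · rw [if_neg hp, if_pos hp]
      · intro a _ b _ hab
        simp only at hab
        omega
    rw [e1]
    apply sum_le_sum_of_subset_of_nonneg
    · intro n hn
      rw [mem_image] at hn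
      obtain ⟨h, hh, rfl⟩ := hn
      rw [mem_Ioc]
      have : 1 ≤ s ^ e := Nat.one_le_pow _ _ (by omega)
      exact ⟨by omega, hH s hs h hh⟩
    · intro n _ _
      split_ifs
      · exact le_rfl
      · exact ArithmeticFunction.vonMangoldt_nonneg
  have hc : (S.card : ℝ) ≤ x := by
    have := card_le_card hS
    rw [Nat.card_Icc, Nat.add_sub_cancel] at this
    exact_mod_cast this
  calc _ ≤ ∑ _s ∈ S, 2 * √(Y : ℝ) * Real.log Y := sum_le_sum h1
    _ = S.card * (2 * √(Y : ℝ) * Real.log Y) := by rw [sum_const, nsmul_eq_mul]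
    _ ≤ _ := by
        apply mul_le_mul_of_nonneg_right hc
        have : 0 ≤ Real.log Y := Real.log_natCast_nonneg Y
        positivity

lemma bil_step (e x N z : ℕ) (R w : ℝ)
    (hbil : ∀ Gf c : ℕ → ℂ, (∀ a, ‖Gf a‖ ≤ 1) → (∀ m, ‖c m‖ ≤ 1) →
      ‖∑ a ∈ Icc 1 N, ∑ m ∈ Icc 1 x, Gf a * c m *
      ((lamI (a + 1 * (X ^ e : ℤ[X]).eval (m : ℤ)) - lamzI z (a + 1 * (X ^ e : ℤ[X]).eval (m : ℤ)) : ℝ) : ℂ)‖ ≤ R)
    (S H : Finset ℕ) (hS : S ⊆ Icc 1 x) (hH : H ⊆ Icc 1 N)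
    (hw : ∀ h ∈ H, ∑ s ∈ S, (ArithmeticFunction.vonMangoldt (s ^ e + h) - lamz z (s ^ e + h)) ≤ -w) :
    H.card * w ≤ R := by
  classical
  have h1 := hbil (fun a => if a ∈ H then 1 else 0) (fun m => if m ∈ S then 1 else 0) (by
    intro a
    split_ifs <;> simp) (by
    intro a
    split_ifs <;> simp)
  have e1 : ∑ a ∈ Icc 1 N, ∑ m ∈ Icc 1 x, (if a ∈ H then (1 : ℂ) else 0) * (if m ∈ S then (1 : ℂ) else 0) *
      ((lamI (a + 1 * (X ^ e : ℤ[X]).eval (m : ℤ)) - lamzI z (a + 1 * (X ^ e : ℤ[X]).eval (m : ℤ)) : ℝ) : ℂ) =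
      ((∑ h ∈ H, ∑ s ∈ S, (ArithmeticFunction.vonMangoldt (s ^ e + h) - lamz z (s ^ e + h)) : ℝ) : ℂ) := by
    have f1 : (Icc 1 N).filter (fun a => a ∈ H) = H := by
      ext a
      rw [mem_filter]
      exact ⟨fun h => h.2, fun h => ⟨hH h, h⟩⟩
    have f2 : (Icc 1 x).filter (fun a => a ∈ S) = S := by
      ext a
      rw [mem_filter]
      exact ⟨fun h => h.2, fun h => ⟨hS h, h⟩⟩
    rw [Complex.ofReal_sum]
    conv_rhs => rw [← f1, sum_filter]
    apply sum_congr rfl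
    intro a ha
    rw [mem_Icc] at ha
    by_cases haH : a ∈ H
    · rw [if_pos haH, if_pos haH, Complex.ofReal_sum]
      conv_rhs => rw [← f2, sum_filter]
      apply sum_congr rfl
      intro m _
      by_cases hmS : m ∈ S
      · rw [if_pos hmS, if_pos hmS, one_mul, one_mul]
        congr 1
        rw [eval_pow, eval_X, one_mul]
        have e2 : (a : ℤ) + (m : ℤ) ^ e = ((m ^ e + a : ℕ) : ℤ) := by push_cast; ring
        rw [e2]
        unfold lamI lamzI
        rw [if_pos (by exact_mod_cast (by omega : 1 ≤ m ^ e + a)), if_pos (by exact_mod_cast (by omega : 1 ≤ m ^ e + a)), Int.toNat_natCast]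
      · rw [if_neg hmS, if_neg hmS, mul_zero, zero_mul]
    · rw [if_neg haH, if_neg haH]
      apply sum_eq_zero
      intro m _
      rw [zero_mul, zero_mul]
  rw [e1, Complex.norm_real, Real.norm_eq_abs] at h1
  have h2 : ∑ h ∈ H, ∑ s ∈ S, (ArithmeticFunction.vonMangoldt (s ^ e + h) - lamz z (s ^ e + h)) ≤ ∑ _h ∈ H, -w := sum_le_sum hw
  rw [sum_const, nsmul_eq_mul] at h2
  have h3 := neg_le_of_abs_le h1
  linarith

lemma lamz_eq (e y z M s w : ℕ) (hs : ∀ p : ℕ, p.Prime → p ≤ y → ¬ p ∣ s) (hM : ∀ p : ℕ, p.Prime → p ≤ y → p ∣ M) :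
    lamz z (s ^ e + M * w) = if ∀ p ∈ mid y z, ¬ p ∣ s ^ e + M * w then (Vz z)⁻¹ else 0 := by
  unfold lamz
  have : (∀ p ∈ pz z, ¬ p ∣ s ^ e + M * w) ↔ (∀ p ∈ mid y z, ¬ p ∣ s ^ e + M * w) := by
    constructor
    · intro h p hp
      exact h p (mem_pz.2 (mem_mid.1 hp).2)
    · intro h p hp hd
      rw [mem_pz] at hp
      by_cases hy : y < p
      · exact h p (mem_mid.2 ⟨hy, hp⟩) hd
      · have h1 : p ∣ M * w := (hM p hp.2 (by omega)).mul_right _
        have h2 : p ∣ s ^ e := (Nat.dvd_add_left h1).1 hd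
        exact hs p hp.2 (by omega) (hp.2.dvd_of_dvd_pow h2)
  by_cases h : ∀ p ∈ mid y z, ¬ p ∣ s ^ e + M * w
  · rw [if_pos h, if_pos (this.2 h)]
  · rw [if_neg h, if_neg (fun h2 => h (this.1 h2))]

lemma primorial_le_log (K1 y : ℕ) (L : ℝ) (hL : Real.exp 1 ≤ L) (hy : (y : ℝ) ≤ K1 * Real.log L) :
    ((primorial y : ℕ) : ℝ) ≤ L ^ (2 * K1) := by
  have hL0 : 0 < L := (Real.exp_pos 1).trans_le hL
  have h1 : ((primorial y : ℕ) : ℝ) ≤ (4 : ℝ) ^ y := by exact_mod_cast primorial_le_four_pow y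
  refine h1.trans ?_
  rw [← Real.log_le_log_iff (by positivity) (by positivity), Real.log_pow, Real.log_pow]
  have h7 : Real.log 4 ≤ 2 := by
    have : Real.log 4 = 2 * Real.log 2 := by
      rw [show (4 : ℝ) = 2 ^ 2 by norm_num, Real.log_pow]
      norm_num
    rw [this]
    have := Real.log_two_lt_d9
    linarith
  have h8 : 0 ≤ Real.log 4 := Real.log_nonneg (by norm_num)
  have hlL : 0 ≤ Real.log L := Real.log_nonneg ((Real.one_le_exp (by norm_num)).trans hL)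
  push_cast
  calc (y : ℝ) * Real.log 4 ≤ y * 2 := by gcongr
    _ ≤ (K1 * Real.log L) * 2 := by gcongr
    _ = _ := by ring

end Pool.Agent.Y877.SX
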